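import Mathlib
import Pool.Agent.Lib.MP_551055_al.Trim.LS.TreeB

/-!
# The four point condition in trees
-/

set_option autoImplicit false

namespace Pool.Agent.Lib.MP_551055_al.LS
end Pool.Agent.Lib.MP_551055_al.LS

namespace Pool.Agent.Lib.TreeTits

open Pool.Agent.Lib.MP_551055_al.LS

section

variable {V : Type} {T : SimpleGraph V}

/-- An edge which separates two vertices. -/
theorem dist_sep (hT : T.IsTree) {x y u w : V} (hadj : T.Adj u w)
    (hx : T.dist x w = T.dist x u + 1) (hy : T.dist y u = T.dist y w + 1) :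
    T.dist x y = T.dist x u + 1 + T.dist y w := by
  have h1 : T.dist u w = 1 := T.dist_eq_one_iff_adj.2 hadj
  have h2 : T.dist u y = T.dist y u := T.dist_comm
  have h3 : T.dist w y = T.dist y w := T.dist_comm
  have h4 := tree_dist_add' hT (x := x) (y := u) (z := w) (w := y) (by omega) (by omega) hadj.ne
  omega

theorem dist_adj (hT : T.IsTree) {u w : V} (hadj : T.Adj u w) (x : V) :
    T.dist x u = T.dist x w + 1 ∨ T.dist x w = T.dist x u + 1 :=
  hT.dist_eq_dist_add_one_of_adj x hadj

/-- Two neighbours closer to `z` are equal. -/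
theorem eq_of_closer (hT : T.IsTree) {y z u v : V} (hu : T.Adj u y) (hv : T.Adj v y)
    (h1 : T.dist z y = T.dist z u + 1) (h2 : T.dist z y = T.dist z v + 1) : u = v := by
  have h3 : T.dist u y = 1 := T.dist_eq_one_iff_adj.2 hu
  have h4 : T.dist v y = 1 := T.dist_eq_one_iff_adj.2 hv
  exact tree_eq_of_dist hT (x := z) (z := y) (by omega) (by omega) (by omega)

theorem loc (hT : T.IsTree) {x y z u v : V} (hu : T.Adj u y) (hv : T.Adj v y) (huv : u ≠ v)
    (hx : T.dist x y = T.dist x u + 1) (hz : T.dist z y = T.dist z v + 1) :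
    T.dist x z = T.dist x y + T.dist y z := by
  have h1 : T.dist z u = T.dist z y + 1 := by
    rcases dist_adj hT hu z with h | h
    · exact h
    · exact absurd (eq_of_closer hT hu hv h hz) huv
  have h2 := dist_sep hT hu hx h1
  have h3 : T.dist z y = T.dist y z := T.dist_comm
  omega

end

end Pool.Agent.Lib.TreeTits
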