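import Mathlib
import Pool.Agent.Lib.MP_551055_al.Trim.X.TreeTits.Four

/-!
# Groups without free subgroups acting on trees: module Axis
-/

set_option autoImplicit false

namespace Pool.Agent.Lib.TreeTits

/-- The distance of two vertices of a sequence of neighbours. -/
theorem axis_dist_le {V : Type} {T : SimpleGraph V} (hT : T.IsTree) {m : ℕ} {y : ℕ → V}
    (hy : ∀ r, r < m → T.Adj (y r) (y (r + 1))) (r n : ℕ) (h : r + n ≤ m) :
    T.dist (y r) (y (r + n)) ≤ n := by
  induction n with
  | zero => rw [add_zero, T.dist_self]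
  | succ n ih =>
    have h1 := ih (by omega)
    have h2 : T.dist (y (r + n)) (y (r + n + 1)) = 1 :=
      T.dist_eq_one_iff_adj.2 (hy (r + n) (by omega))
    have h3 := hT.connected.dist_triangle (u := y r) (v := y (r + n)) (w := y (r + n + 1))
    rw [← add_assoc]
    omega

/-- A sequence of neighbours without backtracking is a geodesic. -/
theorem axis_geod {V : Type} {T : SimpleGraph V} (hT : T.IsTree) {L : ℤ → V}
    (h1 : ∀ i, T.Adj (L i) (L (i + 1))) (h2 : ∀ i, L i ≠ L (i + 2)) (i : ℤ) (n : ℕ) :
    T.dist (L i) (L (i + n)) = n := by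
  induction n with
  | zero => rw [Nat.cast_zero, add_zero, T.dist_self]
  | succ n ih =>
    rcases Nat.eq_zero_or_pos n with rfl | hn
    · rw [zero_add, Nat.cast_one]
      exact T.dist_eq_one_iff_adj.2 (h1 i)
    · have h3 : T.Adj (L (i + n)) (L (i + (n + 1 : ℕ))) := by
        have h4 := h1 (i + n)
        rwa [add_assoc] at h4
      obtain ⟨k, rfl⟩ : ∃ k, n = k + 1 := ⟨n - 1, by omega⟩
      have h5 : T.Adj (L (i + k)) (L (i + (k + 1 : ℕ))) := by
        have h6 := h1 (i + k)
        rwa [add_assoc] at h6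
      have h7 : T.dist (L i) (L (i + k)) = k := by
        have h8 := hT.connected.dist_triangle (u := L i) (v := L (i + k))
          (w := L (i + (k + 1 : ℕ)))
        have h9 : T.dist (L (i + k)) (L (i + (k + 1 : ℕ))) = 1 := T.dist_eq_one_iff_adj.2 h5
        have h10 : T.dist (L i) (L (i + k)) ≤ k := by
          have h11 := axis_dist_le (m := k) hT (y := fun r : ℕ => L (i + r))
            (fun r _ => by
              have h12 := h1 (i + r)
              rw [add_assoc] at h12
              exact h12) 0 k (by omega)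
          simp only [Nat.cast_zero, add_zero, zero_add] at h11
          exact h11
        omega
      have h13 : L (i + k) ≠ L (i + (k + 1 + 1 : ℕ)) := by
        have h14 := h2 (i + k)
        rwa [add_assoc, show ((k : ℤ) + 2) = ((k + 1 + 1 : ℕ) : ℤ) by push_cast; ring] at h14
      have h15 := loc hT (x := L i) (y := L (i + (k + 1 : ℕ))) (z := L (i + (k + 1 + 1 : ℕ)))
        (u := L (i + k)) (v := L (i + (k + 1 + 1 : ℕ))) h5 h3.symm h13 (by rw [ih, h7]) (by
          rw [T.dist_self, zero_add]
          exact T.dist_eq_one_iff_adj.2 h3.symm)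
      rw [h15, ih, T.dist_eq_one_iff_adj.2 h3]

/-- An element without fixed vertices and inversions has an axis. -/
theorem exists_axis {Γ : Type} [Group Γ] {V : Type} [MulAction Γ V] {T : SimpleGraph V}
    (hT : T.IsTree) (hadjm : ∀ (g : Γ) (u v : V), T.Adj u v → T.Adj (g • u) (g • v)) (h : Γ)
    (hinv : ∀ u v : V, T.Adj u v → h • u = v → h • v ≠ u) (hfix : ∀ v : V, h • v ≠ v) :
    ∃ (L : ℤ → V) (m : ℕ), 0 < m ∧ (∀ i j : ℤ, (T.dist (L i) (L j) : ℤ) = |i - j|) ∧
      ∀ i : ℤ, h • L i = L (i + m) := by
  classical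
  -- a vertex with minimal displacement
  have hne : ∃ n : ℕ, ∃ x : V, T.dist x (h • x) = n := by
    obtain ⟨x⟩ := hT.connected.nonempty
    exact ⟨_, x, rfl⟩
  obtain ⟨x, hx⟩ := Nat.find_spec hne
  have hmin : ∀ v : V, Nat.find hne ≤ T.dist v (h • v) := fun v => Nat.find_min' hne ⟨v, rfl⟩
  set m := Nat.find hne with hm
  clear_value m
  have hm0 : 0 < m := by
    rw [← hx]
    exact hT.connected.pos_dist_of_ne fun e => hfix x e.symm
  obtain ⟨p, hp⟩ := hT.connected.exists_walk_length_eq_dist x (h • x)
  rw [hx] at hp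
  let y : ℕ → V := fun r => p.getVert r
  have hy0 : y 0 = x := p.getVert_zero
  have hym : y m = h • x := by
    change p.getVert m = _
    rw [← hp]
    exact p.getVert_length
  have hya : ∀ r, r < m → T.Adj (y r) (y (r + 1)) := fun r hr =>
    p.adj_getVert_succ (by rw [hp]; exact hr)
  -- the axis
  let L : ℤ → V := fun i => h ^ (i / m) • y (i % m).toNat
  have hmZ : (0 : ℤ) < m := by exact_mod_cast hm0
  have hL : ∀ (k : ℤ) (r : ℕ), r ≤ m → L (k * m + r) = h ^ k • y r := by
    intro k r hr
    rcases Nat.lt_or_ge r m with h1 | h1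
    · have h2 : (k * m + r) / (m : ℤ) = k := by
        rw [add_comm, Int.add_mul_ediv_right _ _ hmZ.ne',
          Int.ediv_eq_zero_of_lt (by positivity) (by exact_mod_cast h1), zero_add]
      have h3 : (k * m + r) % (m : ℤ) = r := by
        rw [add_comm, Int.add_mul_emod_self_right,
          Int.emod_eq_of_lt (by positivity) (by exact_mod_cast h1)]
      change h ^ ((k * m + r) / (m : ℤ)) • y ((k * m + r) % (m : ℤ)).toNat = _
      rw [h2, h3, Int.toNat_natCast]
    · have h2 : r = m := le_antisymm hr h1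
      subst h2
      have h3 : (k * r + r) = (k + 1) * (r : ℤ) := by ring
      change h ^ ((k * r + r) / (r : ℤ)) • y ((k * r + r) % (r : ℤ)).toNat = _
      rw [h3, Int.mul_ediv_cancel _ hmZ.ne', Int.mul_emod_left, hym]
      change h ^ (k + 1) • y 0 = _
      rw [hy0, zpow_add_one, mul_smul]
  have hdec : ∀ i : ℤ, ∃ (k : ℤ) (r : ℕ), r < m ∧ i = k * m + r := by
    intro i
    refine ⟨i / m, (i % m).toNat, ?_, ?_⟩
    · have h1 := Int.emod_lt_of_pos i hmZ
      have h2 := Int.emod_nonneg i hmZ.ne'
      omega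
    · have h2 := Int.emod_nonneg i hmZ.ne'
      rw [Int.toNat_of_nonneg h2]
      have h3 := Int.mul_ediv_add_emod i m
      linarith
  have hadj : ∀ i, T.Adj (L i) (L (i + 1)) := by
    intro i
    obtain ⟨k, r, hr, rfl⟩ := hdec i
    have h1 : (k * m + r + 1 : ℤ) = k * m + (r + 1 : ℕ) := by push_cast; ring
    rw [h1, hL k r hr.le, hL k (r + 1) hr]
    exact hadjm _ _ _ (hya r hr)
  have hnb : ∀ i, L i ≠ L (i + 2) := by
    intro i
    obtain ⟨k, r, hr, rfl⟩ := hdec i
    rcases Nat.lt_or_ge (r + 1) m with h1 | h1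
    · have h2 : (k * m + r + 2 : ℤ) = k * m + (r + 2 : ℕ) := by push_cast; ring
      rw [h2, hL k r hr.le, hL k (r + 2) h1]
      intro e
      have e' : y r = y (r + 2) := smul_left_cancel _ e
      have h3 := axis_dist_le hT hya 0 r (by omega)
      have h4 := axis_dist_le hT hya (r + 2) (m - (r + 2)) (by omega)
      rw [zero_add, hy0] at h3
      rw [Nat.add_sub_of_le (show r + 2 ≤ m by omega), hym, ← e'] at h4
      have h5 := hT.connected.dist_triangle (u := x) (v := y r) (w := h • x)
      omega
    · have h2 : r + 1 = m := by omega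
      have h3 : (k * m + r + 2 : ℤ) = (k + 1) * m + (1 : ℕ) := by
        rw [← h2]
        push_cast
        ring
      rw [h3, hL k r hr.le, hL (k + 1) 1 hm0, zpow_add_one, mul_smul]
      intro e
      have e' : y r = h • y 1 := smul_left_cancel _ e
      rcases Nat.eq_zero_or_pos r with h4 | h4
      · subst h4
        have h5 : y 1 = h • x := by
          rw [← hym, ← h2]
        rw [hy0, h5] at e'
        have h6 := hya 0 hr
        rw [hy0, h5] at h6
        exact hinv x (h • x) h6 rfl e'.symm
      · have h5 := axis_dist_le hT hya 1 (r - 1) (by omega)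
        rw [Nat.add_sub_of_le h4, e'] at h5
        have h6 := hmin (y 1)
        omega
  refine ⟨L, m, hm0, fun i j => ?_, fun i => ?_⟩
  · rcases le_total i j with hij | hij
    · obtain ⟨n, hn⟩ := Int.le.dest hij
      rw [← hn, axis_geod hT hadj hnb i n]
      have h1 : i - (i + n) = -(n : ℤ) := by ring
      rw [h1, abs_neg, abs_of_nonneg (by positivity)]
    · obtain ⟨n, hn⟩ := Int.le.dest hij
      rw [← hn, T.dist_comm, axis_geod hT hadj hnb j n]
      have h1 : (j + n) - j = (n : ℤ) := by ring
      rw [h1, abs_of_nonneg (by positivity)]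
  · obtain ⟨k, r, hr, rfl⟩ := hdec i
    have h1 : (k * m + r + m : ℤ) = (k + 1) * m + r := by ring
    rw [h1, hL k r hr.le, hL (k + 1) r hr.le, ← mul_smul, ← zpow_one_add, add_comm]

end Pool.Agent.Lib.TreeTits
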